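import Pool.Agent.Helper418_IRS.IR19
import Pool.Agent.Helper418_Sofic.Main3

/-!
# An ergodic invariant random subgroup of SL(2,ℝ) that is not a weak limit of lattice IRSs

Let `Q` be a finitely generated group that is not sofic, `Γ` a finite index subgroup of `SL(2,ℤ)`
mapping onto `Q` with nonabelian kernel `N`, and `Λ` the normaliser of `N` in `SL(2,ℝ)`, a lattice.
The random conjugate `g N g⁻¹`, `g Λ` uniform in `SL(2,ℝ) ⧸ Λ`, is an ergodic IRS. If it were the
weak-* limit of a sequence of lattice IRSs, the group `Λ ⧸ N`, hence `Q`, would be sofic.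
-/

set_option autoImplicit false

namespace Pool.Agent.Results.MP_2cfc6f_al.NotLatticeLimit

open MeasureTheory Helper418IRS

/-- There is an ergodic IRS of the simple Lie group `SL(2,ℝ)`, different from the point mass at the
whole group, that is not the weak-* limit of any sequence of lattice IRSs. -/
theorem result :
    ∃ μ : Measure (ClosedSubgroup SL2), IsIRS μ ∧ IsErgodic μ ∧ μ ≠ Measure.dirac (whole SL2) ∧
      ¬ ∃ μk : ℕ → Measure (ClosedSubgroup SL2), (∀ k, IsLatticeIRS (μk k)) ∧ WeakLim μk μ := by
  obtain ⟨x, y, L⟩ := Helper418.exists_leav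
  haveI : Group.FG (Helper418.Alg2.GG x y) := Helper418.fg_GG x y
  refine exists_irs_not_limit (Helper418.Alg2.GG x y) fun h => Helper418.not_sofic L ?_
  intro A h1 ε hε
  obtain ⟨n, hn, φ, hφ1, hφ2, hφ3⟩ := h A h1 ε hε
  refine ⟨n, hn, φ, hφ1, fun a b hab => ?_, fun a ha => ?_⟩
  · have := hφ2 a b hab
    simp only [Helper418.hamming, ham] at *
    convert this using 4
  · have := hφ3 a ha
    simp only [Helper418.hamming, ham] at *
    convert this using 4

end Pool.Agent.Results.MP_2cfc6f_al.NotLatticeLimit
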